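import Pool.Agent.Helper28_MNT.MAIN
import Pool.Agent.Helper77_MNT.RES
import Pool.Agent.Helper56_MNT.FPL
import Pool.Agent.Helper56_MNT.FDN
import Pool.Agent.Helper89_MNT.FUP
import Pool.Agent.Helper89_MNT.FLO
import Pool.Agent.Helper50_MNT.SBP
import Pool.Agent.Helper30_MNT.HED
import Pool.Agent.Helper44_MNT.IDJ
import Pool.Agent.Helper50_MNT.LG2
import Pool.Agent.Helper52_MNT.LGN
import Pool.Agent.Helper35_MNT.HBD
import Pool.Agent.Helper44_MNT.QED
import Pool.Agent.Helper86_MNT.NME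
import Pool.Agent.Helper79_MNT.NMO
import Pool.Agent.Helper20_MNT.TRF
import Pool.Agent.Helper24_MNT.LPA
import Pool.Agent.Helper62_MNT.LKS
import Pool.Agent.Helper18_MNT.LGU
import Pool.Agent.Helper46_MNT.LFT
import Pool.Agent.Helper82_MNT.ENL
import Pool.Agent.Helper38_MNT.TRE
import Pool.Agent.Helper94_MNT.A1G
import Pool.Agent.Helper91_MNT.ODA
import Pool.Agent.Helper13_MNT.ODN
import Pool.Agent.Helper47_MNT.THN
import Pool.Agent.Helper32_MNT.OTA
import Pool.Agent.Helper67_MNT.OTN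
import Pool.Agent.Helper69_MNT.FRO
import Pool.Agent.Helper76_MNT.VBD
import Pool.Agent.Helper27_MNT.VLM
import Pool.Agent.Helper47_MNT.CHN
import Pool.Agent.Helper16_MNT.REP
import Pool.Agent.Helper3_MNT.CNT
import Pool.Agent.Helper2_MNT.LOC
import Pool.Agent.Helper87_MNT.LOB
import Pool.Agent.Helper95_MNT.PFL
import Pool.Agent.Helper65_MNT.HGT
import Pool.Agent.Helper17_MNT.PTA
import Pool.Agent.Helper60_MNT.PTB
import Pool.Agent.Helper84_MNT.PTC
import Pool.Agent.Helper60_MNT.PEL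
import Pool.Agent.Helper7_MNT.TH1
import Pool.Agent.Helper35_MNT.TH2
import Pool.Agent.Helper13_MNT.BCH
import Pool.Agent.Helper32_MNT.AFF
import Pool.Agent.Helper38_MNT.TH3
import Pool.Agent.Helper86_MNT.TH4
import Pool.Agent.Helper13_MNT.TH5
import Pool.Agent.Helper81_UBT.Ext1
import Pool.Agent.Helper75_BHT.Ev
import Pool.Agent.Helper75_BHT.A2
import Pool.Agent.Helper76_BHT.Ncs
import Pool.Agent.Helper76_UBT.BC1

set_option autoImplicit false

/-!
# MNT: all rows put together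
-/

namespace Pool.Agent.MNT.All

open Pool.Agent.MNT

theorem fdn : FdnStmt := H56.fdn H56.fpl
theorem fup : FupStmt := H89.fup H56.fpl fdn
theorem flo : FloStmt := H89.flo H56.fpl fdn fup
theorem idj : IdjStmt := H44.idj H30.hed
theorem hbd : HbdStmt := H35.hbd H50.lg2 H52.lgn
theorem trf : TrfStmt := H20.trf H77.res flo H50.sbp H30.hed idj hbd H44.qed H86.nme H79.nmo
theorem lgu : LguStmt := H18.lgu H62.lks
theorem tre : TreStmt := H38.tre trf H24.lpa H62.lks lgu H46.lft H82.enl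
theorem oda : OdaStmt := H91.oda H94.a1g BHT.a2
theorem ota : OtaStmt := H32.ota H47.thn oda
theorem otn : OtnStmt := H67.otn H13.odn
theorem vbd : VbdStmt := H76.vbd H69.fro
theorem vlm : VlmStmt := H27.vlm vbd
theorem rep (h : UltStmt) : RepStmt := H16.rep H47.chn h
theorem loc (h : UltStmt) : LocStmt := H2.loc tre vlm (rep h) H3.cnt
theorem lob (h : UltStmt) : LobStmt := H87.lob (loc h) ota otn
theorem hgt (h : UltStmt) : HgtStmt := H65.hgt (lob h) H95.pfl BHT.ev UBT.ext1
theorem ptb : PtbStmt := H60.ptb H17.pta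
theorem ptc : PtcStmt := H84.ptc ptb
theorem pel : PelStmt := H60.pel ptb ptc
theorem bch : BchStmt := H13.bch H76UBT.bc1
theorem th1 (h : UltStmt) : Th1Stmt := H7.th1 (hgt h) pel
theorem th2 (h : UltStmt) : Th2Stmt := H35.th2 (th1 h) H76BHT.ncs
theorem th3 (h : UltStmt) : Th3Stmt := H38.th3 (th2 h) bch H32.aff
theorem th4 (h : UltStmt) : Th4Stmt := H86.th4 (th3 h) bch UBT.ext1
theorem th5 (h : UltStmt) (h' : CnjStmt) : Th5Stmt := H13.th5 (th4 h) h' bch

end Pool.Agent.MNT.All
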