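import Pool.Agent.MNT.Fin

set_option autoImplicit false

/-!
# MNT: assembly of the final theorem
-/

namespace Pool.Agent.MNT.H28

open Polynomial NumberField
open Pool.Agent.MNT

theorem RR_eq (g : ℕ) : RR g = Finset.univ.map (Function.Embedding.inl (α := Fin (2 * g + 1))
    (β := Fin (4 * g + 8))) := by
  ext p
  rcases p with p | p
  · simp [RR]
  · simp [RR]

theorem inl_mem (g : ℕ) (j : Fin (2 * g + 1)) : (Sum.inl j : PP g) ∈ RR g := by simp [RR]

theorem inr_notMem (g : ℕ) (i : Fin (4 * g + 8)) : (Sum.inr i : PP g) ∉ RR g := by simp [RR]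

theorem FF_elim {K : Type} [Field K] (g : ℕ) (e : K) (θ : Fin (2 * g + 1) → K)
    (x : Fin (4 * g + 8) → K) :
    FF e (RR g) (Sum.elim θ x) = C e * ∏ j, (X - C (θ j)) := by
  rw [FF, RR_eq, Finset.prod_map]
  rfl

theorem conf_of {K : Type} [Field K] (g : ℕ) (f : K[X]) (hsq : Squarefree f)
    (x y : Fin (4 * g + 8) → K) (hx : Function.Injective x) (hon : ∀ i, y i ^ 2 = f.eval (x i))
    (hne : ∀ i, y i ≠ 0) (htor : ∀ i, ∃ N, TorB f (x i) (y i) N) (e : K)
    (θ : Fin (2 * g + 1) → K) (hf : f = C e * ∏ j, (X - C (θ j))) :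
    Conf g (Sum.elim θ x) e (Sum.elim 0 y) := by
  have hf0 : f ≠ 0 := hsq.ne_zero
  have he : e ≠ 0 := by
    rintro rfl
    rw [C_0, zero_mul] at hf
    exact hf0 hf
  have hroot : ∀ j, f.eval (θ j) = 0 := by
    intro j
    rw [hf, eval_mul, eval_prod]
    rw [Finset.prod_eq_zero (Finset.mem_univ j) (by simp), mul_zero]
  have hθ : Function.Injective θ := by
    intro j k hjk
    by_contra hne'
    have h1 : (X - C (θ j)) * (X - C (θ j)) ∣ f := by
      rw [hf]
      apply Dvd.dvd.mul_left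
      rw [← Finset.mul_prod_erase _ _ (Finset.mem_univ j)]
      apply mul_dvd_mul_left
      have h2 : k ∈ Finset.univ.erase j := Finset.mem_erase.2 ⟨fun h => hne' h.symm,
        Finset.mem_univ k⟩
      rw [← Finset.mul_prod_erase _ _ h2, ← hjk]
      exact dvd_mul_right _ _
    have h3 := hsq _ h1
    exact not_isUnit_X_sub_C _ h3
  refine ⟨?_, he, ?_, ?_⟩
  · rw [Sum.elim_injective]
    refine ⟨hθ, hx, ?_⟩
    intro j i h
    apply hne i
    have h1 := hon i
    rw [← h, hroot j] at h1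
    exact pow_eq_zero_iff (two_ne_zero) |>.1 h1
  · rintro (j | i) hp
    · exact absurd (inl_mem g j) hp
    · rw [FF_elim, ← hf]
      exact hon i
  · rintro (j | i) hp
    · exact absurd (inl_mem g j) hp
    · rw [FF_elim, ← hf]
      exact htor i

/-- splitting field -/
theorem split (hb : BchStmt) (hext : UBT.Ext1Stmt) (g : ℕ) (K : Type) [Field K] [NumberField K]
    (f : K[X]) (hd : f.natDegree = 2 * g + 1) (hsq : Squarefree f)
    (x y : Fin (4 * g + 8) → K) (hx : Function.Injective x) (hon : ∀ i, y i ^ 2 = f.eval (x i))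
    (hne : ∀ i, y i ≠ 0) (htor : ∀ i, ∃ N, TorB f (x i) (y i) N) :
    ∃ (E : Type) (_ : Field E) (_ : NumberField E) (_ : Algebra K E) (e : E)
      (θ : Fin (2 * g + 1) → E),
      Module.finrank ℚ E ≤ Module.finrank ℚ K * (2 * g + 1).factorial ∧
      f.map (algebraMap K E) = C e * ∏ j, (X - C (θ j)) ∧
      Conf g (Sum.elim θ fun i => algebraMap K E (x i)) e
        (Sum.elim 0 fun i => algebraMap K E (y i)) := by
  obtain ⟨E, _, _, _, hs, hdeg⟩ := hext K f hsq.ne_zero
  have hinj : Function.Injective (algebraMap K E) := (algebraMap K E).injective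
  have hf0 : f.map (algebraMap K E) ≠ 0 := (Polynomial.map_ne_zero_iff hinj).2 hsq.ne_zero
  have hsq' : Squarefree (f.map (algebraMap K E)) :=
    (PerfectField.separable_iff_squarefree.2 hsq).map.squarefree
  have hcard : (f.map (algebraMap K E)).roots.card = 2 * g + 1 := by
    rw [← hs.natDegree_eq_card_roots, natDegree_map, hd]
  obtain ⟨L, hL⟩ := Quot.exists_rep (f.map (algebraMap K E)).roots
  have hLc : L.length = 2 * g + 1 := by
    rw [← hcard, ← hL]
    rfl
  have hprod : f.map (algebraMap K E) = C (f.map (algebraMap K E)).leadingCoeff *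
      ∏ j : Fin (2 * g + 1), (X - C (L.get (Fin.cast hLc.symm j))) := by
    conv_lhs => rw [hs.eq_prod_roots]
    congr 1
    rw [← hL]
    have h1 : (Multiset.map (fun a => X - C a) (Quot.mk _ L : Multiset E)).prod =
        (L.map fun a => X - C a).prod := by
      show (Multiset.map (fun a => X - C a) (L : Multiset E)).prod = _
      rw [Multiset.map_coe, Multiset.prod_coe]
    rw [h1]
    have h2 : (L.map fun a => (X - C a : E[X])).prod =
        ∏ j : Fin L.length, (X - C (L.get j)) := by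
      rw [← List.prod_ofFn]
      congr 1
      apply List.ext_get
      · simp
      · intro n h1 h2
        simp
    rw [h2]
    exact (Fin.prod_congr' (fun j => (X - C (L.get j) : E[X])) hLc.symm).symm
  refine ⟨E, inferInstance, inferInstance, inferInstance, _, _, ?_, hprod, ?_⟩
  · rw [← Module.finrank_mul_finrank ℚ K E]
    apply Nat.mul_le_mul_left
    rw [← hd]
    exact hdeg
  · apply conf_of g (f.map (algebraMap K E)) hsq' _ _ (hinj.comp hx) _ _ _ _ _ hprod
    · intro i
      rw [← map_pow, hon i]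
      exact (Polynomial.eval_map_apply (algebraMap K E) (x i)).symm
    · intro i
      exact (_root_.map_ne_zero _).2 (hne i)
    · intro i
      obtain ⟨N, hN⟩ := htor i
      exact ⟨N, (hb K E (algebraMap K E) f (x i) (y i) N (hd ▸ ⟨g, rfl⟩)).1 hN⟩

theorem main (h1 : Th1Stmt) (h2 : Th2Stmt) (h4 : Th4Stmt) (h5 : Th5Stmt) (hb : BchStmt)
    (hext : UBT.Ext1Stmt) (g : ℕ) (hg : 2 ≤ g) :
    (∃ H : ℝ, ∀ (K : Type) [Field K] [NumberField K] (C : UBT.OddCurve K)
      (x y : Fin (4 * g + 8) → K), ManyTorsion g C x y → ∀ (e : K) (θ : Fin (2 * g + 1) → K),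
      C.f = Polynomial.C e * ∏ j, (X - Polynomial.C (θ j)) →
      Height.mulHeight (fun pq : (Fin (2 * g + 1) ⊕ Fin (4 * g + 8)) ×
        (Fin (2 * g + 1) ⊕ Fin (4 * g + 8)) => Sum.elim θ x pq.1 - Sum.elim θ x pq.2) ≤
        H ^ Module.finrank ℚ K) ∧
    (∀ d : ℕ, ∃ S : Finset (Fin (2 * g + 1) ⊕ Fin (4 * g + 8) → AlgebraicClosure ℚ),
      ∀ (K : Type) [Field K] [NumberField K], Module.finrank ℚ K ≤ d → ∀ (C : UBT.OddCurve K)
      (x y : Fin (4 * g + 8) → K), ManyTorsion g C x y → ∀ φ : K →+* AlgebraicClosure ℚ,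
      ∃ s ∈ S, ∃ μ ν : AlgebraicClosure ℚ, μ ≠ 0 ∧ (∀ i, φ (x i) = μ * s (Sum.inr i) + ν) ∧
        (C.f.map φ).roots = Finset.univ.val.map fun j => μ * s (Sum.inl j) + ν) ∧
    (∀ d : ℕ, ∃ B : ℕ, ∀ (K : Type) [Field K] [NumberField K], Module.finrank ℚ K ≤ d →
      ∀ (C : UBT.OddCurve K) (x y : Fin (4 * g + 8) → K), ManyTorsion g C x y →
      ∀ i, orderOf (cls C (x i) (y i)) ≤ B) ∧
    ∀ d : ℕ, ∃ B : ℕ, ∀ (K M : Type) [Field K] [NumberField K] [Field M] [NumberField M]
      [Algebra K M], Module.finrank ℚ M ≤ d → ∀ (C : UBT.OddCurve K) (C' : UBT.OddCurve M),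
      C.f.natDegree = 2 * g + 1 → C'.f = C.f.map (algebraMap K M) → ∀ x y : M,
      y ^ 2 = C'.f.eval x → 4 * g + 8 ≤ (minpoly K x).natDegree → IsOfFinOrder (cls C' x y) →
      orderOf (cls C' x y) ≤ B := by
  refine ⟨?_, ?_, ?_, ?_⟩
  · obtain ⟨H, -, hH⟩ := h1 g hg
    refine ⟨H, ?_⟩
    intro K _ _ C x y hC e θ hf
    exact hH K _ e _ (conf_of g C.f C.sqfree x y hC.inj hC.on hC.ne
      (fun i => (tor_iff C _ _).1 (hC.tor i)) e θ hf)
  · intro d
    obtain ⟨S, hS⟩ := h2 g hg (d * (2 * g + 1).factorial)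
    refine ⟨S, ?_⟩
    intro K _ _ hK C x y hC φ
    obtain ⟨E, _, _, _, e, θ, hE, hf, hconf⟩ := split hb hext g K C.f hC.deg C.sqfree x y hC.inj
      hC.on hC.ne (fun i => (tor_iff C _ _).1 (hC.tor i))
    have hE' : Module.finrank ℚ E ≤ d * (2 * g + 1).factorial :=
      hE.trans (Nat.mul_le_mul_right _ hK)
    -- extend φ
    letI : Algebra K (AlgebraicClosure ℚ) := φ.toAlgebra
    haveI : Algebra.IsAlgebraic K E := by
      haveI : IsScalarTower ℚ K E := inferInstance
      exact Algebra.IsAlgebraic.tower_top (K := ℚ) K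
    let ψ : E →ₐ[K] AlgebraicClosure ℚ := IsAlgClosed.lift
    have hψ : ∀ a : K, ψ (algebraMap K E a) = φ a := fun a => ψ.commutes a
    obtain ⟨s, hs, μ, ν, hμ, hp⟩ := hS E hE' _ e _ hconf ψ.toRingHom
    have hp' : ∀ p, ψ (Sum.elim θ (fun i => algebraMap K E (x i)) p) = μ * s p + ν := hp
    refine ⟨s, hs, μ, ν, hμ, ?_, ?_⟩
    · intro i
      have := hp' (Sum.inr i)
      rw [Sum.elim_inr, hψ] at this
      exact this
    · have h3 : C.f.map φ = (C.f.map (algebraMap K E)).map ψ.toRingHom := by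
        rw [Polynomial.map_map]
        congr 1
        ext a
        exact (hψ a).symm
      have h4 : (C.f.map (algebraMap K E)).map ψ.toRingHom =
          Polynomial.C (ψ e) * ∏ j, (X - Polynomial.C (μ * s (Sum.inl j) + ν)) := by
        rw [hf, Polynomial.map_mul, Polynomial.map_C, Polynomial.map_prod]
        congr 1
        refine Finset.prod_congr rfl fun j _ => ?_
        rw [Polynomial.map_sub, Polynomial.map_X, Polynomial.map_C]
        have := hp' (Sum.inl j)
        rw [Sum.elim_inl] at this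
        rw [← this]
        rfl
      have he : ψ e ≠ 0 := (_root_.map_ne_zero ψ).2 hconf.e_ne
      rw [h3, h4, Polynomial.roots_C_mul _ he]
      have h5 : (∏ j, (X - Polynomial.C (μ * s (Sum.inl j) + ν))) =
          ((Finset.univ.val.map fun j => μ * s (Sum.inl j) + ν).map
            fun a => X - Polynomial.C a).prod := by
        rw [Multiset.map_map]
        rfl
      rw [h5, Polynomial.roots_multiset_prod_X_sub_C]
  · intro d
    obtain ⟨B, hB⟩ := h4 g hg d
    refine ⟨B, ?_⟩
    intro K _ _ hK C x y hC i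
    obtain ⟨N, hN, hT⟩ := hB K hK C.f hC.deg C.sqfree x y hC.inj hC.on hC.ne
      (fun i => (tor_iff C _ _).1 (hC.tor i)) i
    exact (order_le C _ _ N hT).trans hN
  · intro d
    obtain ⟨B, hB⟩ := h5 g hg d
    refine ⟨B, ?_⟩
    intro K M _ _ _ _ _ hM C C' hdeg hf x y hxy hmin htor
    have hy : y ≠ 0 := by
      rintro rfl
      rw [hf] at hxy
      have h0 : (C.f.map (algebraMap K M)).eval x = 0 := by
        rw [← hxy]; ring
      have h1 : Polynomial.aeval x C.f = 0 := by
        rw [← Polynomial.eval_map_algebraMap]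
        exact h0
      have h2 := Polynomial.natDegree_le_of_dvd (minpoly.dvd K x h1) C.sqfree.ne_zero
      omega
    obtain ⟨N, hN, hT⟩ := hB K M hM C.f hdeg C.sqfree x y hmin (by rw [← hf]; exact hxy) hy
      (by rw [← hf]; exact (tor_iff C' _ _).1 htor)
    rw [← hf] at hT
    exact (order_le C' _ _ N hT).trans hN

end Pool.Agent.MNT.H28
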